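import Pool.Agent.H97.PRP.Targets
import Pool.Agent.H10.PRK.GCX

/-!
# MP_e37c09_lc, row FC: codes of finite sets of ordinals
-/

open Ordinal Cardinal Order Set
open scoped ZFSet

universe u

namespace Pool.Agent.H95.PRP

open _root_.HD HD.PRK HD.PRP

/-- the graph of a definable function on pairs of ordinals, at the level of sets -/
theorem fc_t {t : Ordinal.{u} → Ordinal.{u} → Ordinal.{u}}
    (ht : DO fun w => w 2 = t (w 0) (w 1)) (i j k : ℕ) :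
    DZ.{u} fun v => (v i).IsOrdinal ∧ (v j).IsOrdinal ∧
      v k = (t (v i).rank (v j).rank).toZFSet := by
  obtain ⟨Q, hQ, h⟩ := ht
  refine DZ.congr (P := fun v => (v i).IsOrdinal ∧ (v j).IsOrdinal ∧ (v k).IsOrdinal ∧
    Q (fun n => v (if n = 0 then i else if n = 1 then j else k)))
    ((DZ.ord i).and ((DZ.ord j).and ((DZ.ord k).and (hQ.ren _)))) fun v => ?_
  have key : (v i).IsOrdinal → (v j).IsOrdinal → (v k).IsOrdinal →
      (Q (fun n => v (if n = 0 then i else if n = 1 then j else k)) ↔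
        (v k).rank = t (v i).rank (v j).rank) := by
    intro h1 h2 h3
    have h4 := h fun n => (v (if n = 0 then i else if n = 1 then j else k)).rank
    have h5 : (ov fun n => (v (if n = 0 then i else if n = 1 then j else k)).rank) =
        fun n => v (if n = 0 then i else if n = 1 then j else k) := by
      funext n
      unfold ov
      rcases n with _ | _ | n
      · simpa using h1.toZFSet_rank_eq
      · simpa using h2.toZFSet_rank_eq
      · simpa using h3.toZFSet_rank_eq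
    rw [h5] at h4
    rw [← h4]
    simp
  constructor
  · rintro ⟨h1, h2, h3⟩
    have h4 : (v k).IsOrdinal := by
      rw [h3]
      exact ZFSet.isOrdinal_toZFSet _
    refine ⟨h1, h2, h4, (key h1 h2 h4).2 ?_⟩
    rw [h3, rank_toZFSet]
  · rintro ⟨h1, h2, h4, h5⟩
    refine ⟨h1, h2, ?_⟩
    rw [← (key h1 h2 h4).1 h5]
    exact h4.toZFSet_rank_eq.symm

/-- the set with the code `σ` -/
noncomputable def cs (t : Ordinal.{u} → Ordinal.{u} → Ordinal.{u}) (σ : Ordinal.{u}) :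
    ZFSet.{u} :=
  open Classical in
  if h : ∃ p : Ordinal.{u} × Ordinal.{u} × Ordinal.{u}, p.2.1 < σ ∧
      σ = t (t p.1 p.2.2) p.2.1 then
    insert (h.choose.1).toZFSet (cs t h.choose.2.1)
  else ∅
termination_by σ
decreasing_by exact h.choose_spec.1

section

variable {t : Ordinal.{u} → Ordinal.{u} → Ordinal.{u}}

theorem cs_ins (hinj : ∀ a b a' b', t a b = t a' b' → a = a' ∧ b = b') {a b c σ : Ordinal.{u}}
    (hb : b < σ) (hσ : σ = t (t a c) b) : cs t σ = insert a.toZFSet (cs t b) := by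
  have h : ∃ p : Ordinal.{u} × Ordinal.{u} × Ordinal.{u}, p.2.1 < σ ∧
      σ = t (t p.1 p.2.2) p.2.1 := ⟨(a, b, c), hb, hσ⟩
  rw [cs, dif_pos h]
  have h1 := hσ.symm.trans h.choose_spec.2
  obtain ⟨h2, h3⟩ := hinj _ _ _ _ h1
  obtain ⟨h4, -⟩ := hinj _ _ _ _ h2
  rw [← h3, ← h4]

theorem cs_emp {σ : Ordinal.{u}} (h : ¬ ∃ a b c, b < σ ∧ σ = t (t a c) b) : cs t σ = ∅ := by
  rw [cs, dif_neg]
  rintro ⟨⟨a, b, c⟩, h1, h2⟩
  exact h ⟨a, b, c, h1, h2⟩

/-- the recursion -/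
def Ph (t : Ordinal.{u} → Ordinal.{u} → Ordinal.{u}) (c g y : ZFSet.{u}) : Prop :=
  (∃ x w b m : ZFSet.{u}, (x.IsOrdinal ∧ w.IsOrdinal ∧ m = (t x.rank w.rank).toZFSet) ∧
    (m.IsOrdinal ∧ b.IsOrdinal ∧ c = (t m.rank b.rank).toZFSet) ∧ b ∈ c ∧
      ∃ y', ZFSet.pair b y' ∈ g ∧ y = insert x y') ∨
  (¬ ∃ x w b m : ZFSet.{u}, (x.IsOrdinal ∧ w.IsOrdinal ∧ m = (t x.rank w.rank).toZFSet) ∧
    (m.IsOrdinal ∧ b.IsOrdinal ∧ c = (t m.rank b.rank).toZFSet) ∧ b ∈ c) ∧ y = ∅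

theorem dz_Ph (ht : DO fun w => w 2 = t (w 0) (w 1)) :
    DZ.{u} fun v => Ph t (v 1) (v 2) (v 3) := by
  unfold Ph
  refine DZ.or ?_ (DZ.and (DZ.not ?_) (loc_empty 3).dz)
  · exact DZ.ex (DZ.ex (DZ.ex (DZ.ex (DZ.and (fc_t ht 3 2 0) (DZ.and (fc_t ht 0 1 5)
      (DZ.and (DZ.mem 1 5) (DZ.ex (DZ.and (loc_pmem 2 0 7).dz (loc_insert 8 4 0).dz))))))))
  · exact DZ.ex (DZ.ex (DZ.ex (DZ.ex (DZ.and (fc_t ht 3 2 0) (DZ.and (fc_t ht 0 1 5)
      (DZ.mem 1 5))))))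

theorem cs_rec (hinj : ∀ a b a' b', t a b = t a' b' → a = a' ∧ b = b') (c : Ordinal.{u})
    (y : ZFSet.{u}) : y = cs t c ↔ Ph t c.toZFSet (gr (cs t) c) y := by
  constructor
  · rintro rfl
    by_cases h : ∃ a b d, b < c ∧ c = t (t a d) b
    · obtain ⟨a, b, d, hb, hc⟩ := h
      refine Or.inl ⟨a.toZFSet, d.toZFSet, b.toZFSet, (t a d).toZFSet,
        ⟨ZFSet.isOrdinal_toZFSet _, ZFSet.isOrdinal_toZFSet _, by
          rw [rank_toZFSet, rank_toZFSet]⟩,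
        ⟨ZFSet.isOrdinal_toZFSet _, ZFSet.isOrdinal_toZFSet _, by
          rw [rank_toZFSet, rank_toZFSet, ← hc]⟩,
        toZFSet_mem_toZFSet_iff.2 hb, cs t b, pair_mem_gr.2 ⟨hb, rfl⟩, cs_ins hinj hb hc⟩
    · refine Or.inr ⟨?_, cs_emp h⟩
      rintro ⟨x, w, b, m, ⟨hx, hw, hm⟩, ⟨hm', hb, hc⟩, hbc⟩
      obtain ⟨b, rfl⟩ := ord_of hb
      refine h ⟨x.rank, b, w.rank, toZFSet_mem_toZFSet_iff.1 hbc, ?_⟩
      have h1 := toZFSet_injective hc
      rw [hm, rank_toZFSet, rank_toZFSet] at h1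
      exact h1
  · rintro (⟨x, w, b, m, ⟨hx, hw, hm⟩, ⟨hm', hb, hc⟩, hbc, y', hy', rfl⟩ | ⟨h, rfl⟩)
    · obtain ⟨b, rfl⟩ := ord_of hb
      obtain ⟨x, rfl⟩ := ord_of hx
      have h1 := toZFSet_injective hc
      rw [hm, rank_toZFSet, rank_toZFSet, rank_toZFSet] at h1
      obtain ⟨hb', rfl⟩ := pair_mem_gr.1 hy'
      exact (cs_ins hinj hb' h1).symm
    · refine (cs_emp ?_).symm
      rintro ⟨a, b, d, hb, hc⟩
      exact h ⟨a.toZFSet, d.toZFSet, b.toZFSet, (t a d).toZFSet,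
        ⟨ZFSet.isOrdinal_toZFSet _, ZFSet.isOrdinal_toZFSet _, by
          rw [rank_toZFSet, rank_toZFSet]⟩,
        ⟨ZFSet.isOrdinal_toZFSet _, ZFSet.isOrdinal_toZFSet _, by
          rw [rank_toZFSet, rank_toZFSet, ← hc]⟩,
        toZFSet_mem_toZFSet_iff.2 hb⟩

theorem cs_dz (ht : DO fun w => w 2 = t (w 0) (w 1))
    (hinj : ∀ a b a' b', t a b = t a' b' → a = a' ∧ b = b') :
    DZ.{u} fun v => (v 0).IsOrdinal ∧ v 1 = cs t (v 0).rank := by
  have h1 := DZ.rec (Φ := fun _ c g y => Ph t c g y) (dz_Ph ht) (F := fun _ c => cs t c)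
    fun _ c y => cs_rec hinj c y
  exact h1.ren fun n => n - 1

/-- there are large codes -/
theorem fc_big (hinj : ∀ a b a' b', t a b = t a' b' → a = a' ∧ b = b') {K : Cardinal.{u}}
    (hK : ℵ₀ ≤ K) (hlt : ∀ a < K.ord, ∀ b < K.ord, t a b < K.ord) (a b : Ordinal.{u}) :
    ∃ s, a < K.ord → b < K.ord → s < K.ord ∧ b < s ∧ ∃ c, s = t (t a c) b := by
  by_cases hab : a < K.ord ∧ b < K.ord
  · obtain ⟨ha, hb⟩ := hab
    by_contra hcon
    have h1 : ∀ c < K.ord, t (t a c) b ≤ b := by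
      intro c hc
      by_contra h2
      exact hcon ⟨t (t a c) b, fun _ _ => ⟨hlt _ (hlt a ha c hc) b hb, not_le.1 h2, c, rfl⟩⟩
    have hb1 : b + 1 < K.ord := (isSuccLimit_ord hK).add_one_lt hb
    have h3 : #(Iio K.ord) ≤ #(Iio (b + 1)) := by
      refine Cardinal.mk_le_of_injective (f := fun c : Iio K.ord =>
        (⟨t (t a c.1) b, lt_of_le_of_lt (h1 c.1 c.2) (lt_add_one b)⟩ : Iio (b + 1))) ?_
      intro c c' hcc
      have h4 : t (t a c.1) b = t (t a c'.1) b := congrArg Subtype.val hcc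
      exact Subtype.ext (hinj _ _ _ _ (hinj _ _ _ _ h4).1).2
    rw [Cardinal.mk_Iio_ordinal, Cardinal.mk_Iio_ordinal, Cardinal.lift_le,
      Cardinal.card_ord] at h3
    exact absurd (Cardinal.lt_ord.1 hb1) (not_lt.2 h3)
  · exact ⟨0, fun h1 h2 => absurd ⟨h1, h2⟩ hab⟩

end

theorem pf_FC : HD.PRP.T_FC.{u} := by
  obtain ⟨t, htd, hinj, hlt⟩ := HD.All.pr.{u}
  refine ⟨cs t, cs_dz htd hinj, fun K hK hK0 => ?_⟩
  have h1 := fun a b => fc_big hinj hK.aleph0_le (hlt K hK.aleph0_le) a b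
  choose g hg using h1
  obtain ⟨C, hC, hC'⟩ := Pool.Agent.H10.PRK.gcx_cl hK hK0 g fun a ha b hb => (hg a b ha hb).1
  refine ⟨C, hC, fun β hβ hβK s hs hfin => ?_⟩
  obtain ⟨hlim, hcl⟩ := hC' β hβ
  have key : ∀ T : Set Ordinal.{u}, T.Finite → (∀ a ∈ T, a < β) →
      ∃ σ < β, ∀ z, z ∈ cs t σ ↔ ∃ a ∈ T, z = a.toZFSet := by
    intro T hT
    induction T, hT using Set.Finite.induction_on with
    | empty =>
      intro _
      refine ⟨0, hlim.bot_lt, fun z => ?_⟩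
      rw [cs_emp]
      · simp
      · rintro ⟨a, b, c, hb, -⟩
        exact absurd hb (not_lt.2 (bot_le (a := b)))
    | @insert a T _ _ ih =>
      intro hT'
      obtain ⟨σ, hσ, h2⟩ := ih fun b hb => hT' b (Set.mem_insert_of_mem _ hb)
      have ha : a < β := hT' a (Set.mem_insert _ _)
      obtain ⟨-, h3, c, h4⟩ := hg a σ (ha.trans hβK) (hσ.trans hβK)
      refine ⟨g a σ, hcl a ha σ hσ, fun z => ?_⟩
      rw [cs_ins hinj h3 h4, ZFSet.mem_insert_iff, h2 z]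
      constructor
      · rintro (rfl | ⟨b, hb, rfl⟩)
        · exact ⟨a, Set.mem_insert _ _, rfl⟩
        · exact ⟨b, Set.mem_insert_of_mem _ hb, rfl⟩
      · rintro ⟨b, hb, rfl⟩
        rcases Set.mem_insert_iff.1 hb with rfl | hb
        · exact Or.inl rfl
        · exact Or.inr ⟨b, hb, rfl⟩
  obtain ⟨σ, hσ, h2⟩ := key _ hfin fun a ha => toZFSet_mem_toZFSet_iff.1 (hs ha)
  refine ⟨σ, hσ, ?_⟩
  ext z
  rw [h2 z]
  constructor
  · rintro ⟨a, ha, rfl⟩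
    exact ha
  · intro hz
    obtain ⟨a, -, rfl⟩ := mem_toZFSet_iff.1 (hs hz)
    exact ⟨a, hz, rfl⟩

end Pool.Agent.H95.PRP
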