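import Pool.Agent.H97.PRP.Targets

/-!
# MP_e37c09_lc, row FS: the family `Fs` is definable
-/

open Ordinal Cardinal Order Set
open scoped ZFSet

universe u

namespace Pool.Agent.H95.PRP

open _root_.HD HD.PRK HD.PRP

theorem pf_FS : HD.PRP.T_FS.{u} := by
  intro κ G hG
  refine DZ.congr (P := fun v => ∀ z, z ∈ v 0 ↔ ∃ y a, z = ZFSet.pair y a ∧ y ⊆ κ.toZFSet ∧
    a ∈ κ.toZFSet ∧ (∀ b ∈ y, a ∈ b) ∧ ∃ w, (∀ t, t ∈ w ↔ t ∈ v 1 ∨ t ∈ y) ∧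
      ZFSet.pair w a ∈ G) ?_ ?_
  · refine DZ.od (R := fun k v => ∀ z, z ∈ v 0 ↔ ∃ y a, z = ZFSet.pair y a ∧ y ⊆ k ∧
      a ∈ k ∧ (∀ b ∈ y, a ∈ b) ∧ ∃ w, (∀ t, t ∈ w ↔ t ∈ v 1 ∨ t ∈ y) ∧
        ZFSet.pair w a ∈ G) (OD.ordinal κ) ?_
    refine DZ.od (R := fun g v => ∀ z, z ∈ v 1 ↔ ∃ y a, z = ZFSet.pair y a ∧ y ⊆ v 0 ∧
      a ∈ v 0 ∧ (∀ b ∈ y, a ∈ b) ∧ ∃ w, (∀ t, t ∈ w ↔ t ∈ v 2 ∨ t ∈ y) ∧
        ZFSet.pair w a ∈ g) hG ?_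
    exact DZ.all (DZ.iff (DZ.mem 0 3) (DZ.ex (DZ.ex (DZ.and (loc_pair 2 1 0).dz
      (DZ.and (Loc.sub 1 4).dz (DZ.and (DZ.mem 0 4) (DZ.and (DZ.allMem 1 (DZ.mem 1 0))
        (DZ.ex (DZ.and (DZ.all (DZ.iff (DZ.mem 0 1) (DZ.or (DZ.mem 0 8) (DZ.mem 0 3))))
          (loc_pmem 0 1 4).dz)))))))))
  · intro v
    have key : ∀ z : ZFSet.{u}, z ∈ Fs κ G (v 1) ↔ ∃ y a, z = ZFSet.pair y a ∧
        y ⊆ κ.toZFSet ∧ a ∈ κ.toZFSet ∧ (∀ b ∈ y, a ∈ b) ∧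
        ∃ w, (∀ t, t ∈ w ↔ t ∈ v 1 ∨ t ∈ y) ∧ ZFSet.pair w a ∈ G := by
      intro z
      unfold Fs
      rw [ZFSet.mem_sep]
      constructor
      · rintro ⟨h1, y, a, rfl, h2, h3⟩
        rw [ZFSet.pair_mem_prod, ZFSet.mem_powerset] at h1
        exact ⟨y, a, rfl, h1.1, h1.2, h2, v 1 ∪ y, fun t => ZFSet.mem_union, h3⟩
      · rintro ⟨y, a, rfl, h1, h2, h3, w, hw, h4⟩
        have he : w = v 1 ∪ y := by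
          ext t
          rw [hw t, ZFSet.mem_union]
        rw [he] at h4
        refine ⟨?_, y, a, rfl, h3, h4⟩
        rw [ZFSet.pair_mem_prod, ZFSet.mem_powerset]
        exact ⟨h1, h2⟩
    constructor
    · intro h z
      rw [h]
      exact key z
    · intro h
      ext z
      rw [h z, key z]

end Pool.Agent.H95.PRP
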