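import Pool.Agent.H97.PRP.Targets

/-!
# MP_e37c09_lc, row LC: the set of the least counterexamples is ordinal definable
-/

open Ordinal Cardinal Order Set
open scoped ZFSet

universe u

namespace Pool.Agent.H95.PRP

open _root_.HD HD.PRK HD.PRP

/-- `B` is the only set which is related to `x` by the set with code `c` -/
def Qc (en : Ordinal.{u} → ZFSet.{u}) (x c B : ZFSet.{u}) : Prop :=
  c.IsOrdinal ∧ ∀ z, ZFSet.pair x z ∈ en c.rank ↔ z = B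

theorem lc_dz_Qc {en : Ordinal.{u} → ZFSet.{u}} (h : EN en) (i j k : ℕ) :
    DZ.{u} fun v => Qc en (v i) (v j) (v k) :=
  NF.dz_en' h (R := fun y v => ∀ z, ZFSet.pair (v i) z ∈ y ↔ z = v k) j
    (DZ.all (R := fun z v => ZFSet.pair (v (i + 1)) z ∈ v 0 ↔ z = v (k + 1))
      ((loc_pmem (i + 2) 0 1).dz.iff (DZ.eq 0 (k + 2))))

theorem lc_dz_P {P : ZFSet.{u} → ZFSet.{u} → Prop} (hP : DZ fun v => P (v 0) (v 1)) (i j : ℕ) :
    DZ.{u} fun v => P (v i) (v j) := hP.ren fun n => if n = 0 then i else j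

/-- a counterexample, without definability -/
def Bl (P : ZFSet.{u} → ZFSet.{u} → Prop) (κ : Ordinal.{u}) (x B : ZFSet.{u}) : Prop :=
  B ⊆ κ.toZFSet ∧ P x B

theorem lc_dz_Bl {P : ZFSet.{u} → ZFSet.{u} → Prop} (hP : DZ fun v => P (v 0) (v 1))
    (κ : Ordinal.{u}) (i k : ℕ) : DZ.{u} fun v => Bl P κ (v i) (v k) :=
  (DZ.od (R := fun b v => v k ⊆ b) (OD.ordinal κ) (Loc.sub (k + 1) 0).dz).and (lc_dz_P hP i k)

/-- `a` is an element of the first counterexample at `x` -/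
def Fl (en : Ordinal.{u} → ZFSet.{u}) (P : ZFSet.{u} → ZFSet.{u} → Prop) (κ : Ordinal.{u})
    (x a : ZFSet.{u}) : Prop :=
  ∃ c B, Qc en x c B ∧ Bl P κ x B ∧ a ∈ B ∧ ∀ c' ∈ c, ∀ B', ¬ (Qc en x c' B' ∧ Bl P κ x B')

theorem lc_dz_Fl {en : Ordinal.{u} → ZFSet.{u}} (h : EN en) {P : ZFSet.{u} → ZFSet.{u} → Prop}
    (hP : DZ fun v => P (v 0) (v 1)) (κ : Ordinal.{u}) (i j : ℕ) :
    DZ.{u} fun v => Fl en P κ (v i) (v j) :=
  DZ.ex (R := fun c v => ∃ B, Qc en (v i) c B ∧ Bl P κ (v i) B ∧ v j ∈ B ∧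
      ∀ c' ∈ c, ∀ B', ¬ (Qc en (v i) c' B' ∧ Bl P κ (v i) B'))
    (DZ.ex (R := fun B v => Qc en (v (i + 1)) (v 0) B ∧ Bl P κ (v (i + 1)) B ∧ v (j + 1) ∈ B ∧
      ∀ c' ∈ v 0, ∀ B', ¬ (Qc en (v (i + 1)) c' B' ∧ Bl P κ (v (i + 1)) B'))
    ((lc_dz_Qc h (i + 2) 1 0).and ((lc_dz_Bl hP κ (i + 2) 0).and ((DZ.mem (j + 2) 0).and
      (DZ.allMem (R := fun c' v => ∀ B', ¬ (Qc en (v (i + 2)) c' B' ∧ Bl P κ (v (i + 2)) B')) 1
        (DZ.all (R := fun B' v => ¬ (Qc en (v (i + 3)) (v 0) B' ∧ Bl P κ (v (i + 3)) B'))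
          ((lc_dz_Qc h (i + 4) 1 0).and (lc_dz_Bl hP κ (i + 4) 0)).not))))))

theorem pf_LC : HD.PRP.T_LC.{u} := by
  intro P hP κ
  obtain ⟨en, hen⟩ := HD.All.en.{u}
  have hβ : Gd (κ + ω + ω) := by
    refine ⟨Ordinal.isSuccLimit_add _ Ordinal.isSuccLimit_omega0, ?_⟩
    calc (ω : Ordinal.{u}) ≤ κ + ω := le_add_self
      _ < κ + ω + ω := by
        have h1 : (0 : Ordinal.{u}) < ω := Ordinal.omega0_pos
        exact lt_add_of_pos_right _ h1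
  have hKβ : κ < κ + ω + ω := by
    have h1 : (0 : Ordinal.{u}) < ω := Ordinal.omega0_pos
    exact (lt_add_of_pos_right _ h1).trans_le le_self_add
  set F : ZFSet.{u} := ZFSet.sep (fun z => ∃ x a, z = ZFSet.pair x a ∧ Fl en P κ x a)
    (V_ (κ + ω + ω)) with hF
  have hmem : ∀ x a : ZFSet.{u}, ZFSet.pair x a ∈ F → Fl en P κ x a := by
    intro x a h
    rw [hF, ZFSet.mem_sep] at h
    obtain ⟨-, x', a', h1, h2⟩ := h
    obtain ⟨rfl, rfl⟩ := ZFSet.pair_injective h1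
    exact h2
  refine ⟨F, ?_, ?_⟩
  · refine Pool.Agent.H45.NF.od_sep (NF.od_V _) ?_
    exact DZ.ex (R := fun x v => ∃ a, v 0 = ZFSet.pair x a ∧ Fl en P κ x a)
      (DZ.ex (R := fun a v => v 1 = ZFSet.pair (v 0) a ∧ Fl en P κ (v 0) a)
        ((loc_pair 2 1 0).dz.and (lc_dz_Fl hen hP κ 1 0)))
  · intro x hx X hX hOD hPX
    -- there is a counterexample with a code
    have hex : ∃ c : Ordinal.{u}, ∃ B', Qc en x c.toZFSet B' ∧ Bl P κ x B' := by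
      obtain ⟨R, hR, hRB⟩ := (Pool.Agent.H45.NF.pf_pa x X).1 hOD
      obtain ⟨c, hc⟩ := (hen.od R).1 hR
      refine ⟨c, X, ⟨ZFSet.isOrdinal_toZFSet c, ?_⟩, hX, hPX⟩
      rw [rank_toZFSet, hc]
      exact hRB
    set S : Set Ordinal.{u} := {c | ∃ B', Qc en x c.toZFSet B' ∧ Bl P κ x B'} with hS
    have hne : S.Nonempty := hex
    obtain ⟨B0, hQ0, hB0⟩ := csInf_mem hne
    set c0 : Ordinal.{u} := sInf S with hc0
    have hmin : ∀ c' ∈ c0.toZFSet, ∀ B', ¬ (Qc en x c' B' ∧ Bl P κ x B') := by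
      intro c' hc' B' h
      obtain ⟨c', hc'', rfl⟩ := mem_toZFSet_iff.1 hc'
      exact absurd hc'' (not_lt.2 (csInf_le' (show c' ∈ S from ⟨B', h⟩)))
    have hxV : x ∈ V_ (κ + ω + ω) := mem_V_of_sub hx (Gd.ord.2 hKβ)
    have hsec : ∀ a : Ordinal.{u}, a < κ → (a ∈ sec F x ↔ a.toZFSet ∈ B0) := by
      intro a haK
      constructor
      · intro h
        obtain ⟨c, B', hQ, hB', haB, hm⟩ := hmem _ _ h
        obtain ⟨c, rfl⟩ := ord_of hQ.1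
        have hcc : c = c0 := by
          refine le_antisymm ?_ (csInf_le' (show c ∈ S from ⟨B', hQ, hB'⟩))
          by_contra hlt
          exact hm c0.toZFSet (toZFSet_mem_toZFSet_iff.2 (not_le.1 hlt)) B0 ⟨hQ0, hB0⟩
        rw [hcc] at hQ
        have : B0 = B' := (hQ.2 B0).1 ((hQ0.2 B0).2 rfl)
        rw [this]
        exact haB
      · intro h
        show ZFSet.pair x a.toZFSet ∈ F
        rw [hF, ZFSet.mem_sep]
        exact ⟨hβ.pair hxV (Gd.ord.2 (haK.trans hKβ)), x, a.toZFSet, rfl, c0.toZFSet, B0, hQ0,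
          hB0, h, hmin⟩
    have hos : os κ (sec F x) = B0 := by
      ext z
      rw [mem_os]
      constructor
      · rintro ⟨a, ha, has, rfl⟩
        exact (hsec a ha).1 has
      · intro hz
        obtain ⟨a, ha, rfl⟩ := mem_toZFSet_iff.1 (hB0.1 hz)
        exact ⟨a, ha, (hsec a ha).2 hz, rfl⟩
    rw [hos]
    refine ⟨?_, hB0.2⟩
    refine (Pool.Agent.H45.NF.pf_pa x B0).2 ⟨en c0, (hen.od _).2 ⟨c0, rfl⟩, ?_⟩
    have := hQ0.2
    rwa [rank_toZFSet] at this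

end Pool.Agent.H95.PRP
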